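import Mathlib

/-! The numbers `2 ^ P + 2 ^ ((P + 1) / 2) + 1`, `P ≡ 3 mod 8` prime: strong probable primes to base two, and the orders
of `2` modulo their prime factors. -/

set_option autoImplicit false

namespace Pool.Agent.NH18.SP

/-- `N` is odd, and a prime or a strong pseudoprime to the base `b`: with `N - 1 = 2 ^ e * d`, `d` odd, either `b ^ d`
is `1` or one of the `b ^ (2 ^ j * d)`, `j < e`, is `-1` modulo `N`. -/
def StrongProbablePrime (b N : ℕ) : Prop :=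
  ∃ e d : ℕ, 0 < e ∧ Odd d ∧ N = 2 ^ e * d + 1 ∧ (N ∣ b ^ d - 1 ∨ ∃ j < e, N ∣ b ^ (2 ^ j * d) + 1)

theorem strong {j : ℕ} (hl : (8 * j + 3).Prime) :
    StrongProbablePrime 2 (2 ^ (8 * j + 3) + 2 ^ (4 * j + 2) + 1) := by
  have := Fact.mk hl
  have h2P : (2 : ZMod (8 * j + 3)) ≠ 0 := by
    intro h2
    have h3 : ((2 : ℕ) : ZMod (8 * j + 3)) = 0 := by exact_mod_cast h2
    rw [ZMod.natCast_eq_zero_iff] at h3
    have := Nat.le_of_dvd (by norm_num) h3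
    omega
  have hns : ¬ IsSquare (2 : ZMod (8 * j + 3)) := by
    rw [ZMod.exists_sq_eq_two_iff (by omega)]
    omega
  have hhalf : (8 * j + 3) / 2 = 4 * j + 1 := by omega
  have hm1 : (2 : ZMod (8 * j + 3)) ^ (4 * j + 1) = -1 := by
    rw [← hhalf]
    rcases ZMod.pow_div_two_eq_neg_one_or_one (8 * j + 3) h2P with h | h
    · exfalso
      exact hns ((ZMod.euler_criterion (8 * j + 3) h2P).2 h)
    · exact h
  have hdvd : (8 * j + 3) ∣ 2 ^ (4 * j + 1) + 1 := by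
    rw [← ZMod.natCast_eq_zero_iff]
    push_cast
    rw [hm1]
    ring
  have hodd : Odd (2 ^ (4 * j + 1) + 1) := by
    rw [pow_succ]
    exact ⟨2 ^ (4 * j), by ring⟩
  refine ⟨4 * j + 2, 2 ^ (4 * j + 1) + 1, by omega, hodd, by ring, Or.inr ⟨1, by omega, ?_⟩⟩
  obtain ⟨m, hm⟩ := hdvd
  have hmodd : Odd m := by
    rw [hm] at hodd
    exact (Nat.odd_mul.1 hodd).2
  have h1 : 2 ^ (2 ^ 1 * (2 ^ (4 * j + 1) + 1)) + 1 = (2 ^ (2 * (8 * j + 3))) ^ m + 1 ^ m := by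
    rw [hm, one_pow, ← pow_mul]
    congr 2
    ring
  rw [h1]
  refine dvd_trans ?_ (Odd.nat_add_dvd_pow_add_pow (2 ^ (2 * (8 * j + 3))) 1 hmodd)
  have h2 : 2 ^ (4 * j + 2) ≤ 2 ^ (8 * j + 3) := Nat.pow_le_pow_right (by norm_num) (by omega)
  refine ⟨2 ^ (8 * j + 3) - 2 ^ (4 * j + 2) + 1, ?_⟩
  have h3 : (((2 ^ (8 * j + 3) - 2 ^ (4 * j + 2) + 1 : ℕ)) : ℤ) = 2 ^ (8 * j + 3) - 2 ^ (4 * j + 2) + 1 := by
    push_cast [Nat.cast_sub h2]
    ring
  have h4 : (((2 ^ (2 * (8 * j + 3)) + 1 : ℕ)) : ℤ) =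
      (((2 ^ (8 * j + 3) + 2 ^ (4 * j + 2) + 1) * (2 ^ (8 * j + 3) - 2 ^ (4 * j + 2) + 1) : ℕ) : ℤ) := by
    rw [Nat.cast_mul, h3]
    push_cast
    ring
  exact_mod_cast h4

/-- the order of `2` modulo the prime factors -/
theorem order_eq {j q : ℕ} (hl : (8 * j + 3).Prime) (hq : q.Prime)
    (hd : q ∣ 2 ^ (8 * j + 3) + 2 ^ (4 * j + 2) + 1) :
    orderOf (2 : ZMod q) = 4 * (8 * j + 3) := by
  -- q is odd
  have hq2 : q ≠ 2 := by
    rintro rfl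
    have e : 2 ^ (8 * j + 3) + 2 ^ (4 * j + 2) + 1 =
        2 * (2 ^ (8 * j + 2) + 2 ^ (4 * j + 1)) + 1 := by ring
    rw [e] at hd
    omega
  -- q ≠ 3 and q ≠ 5
  have hmod : ∀ i : ℕ, 2 ^ (4 * i) % 15 = 1 := by
    intro i
    rw [pow_mul, Nat.pow_mod]
    norm_num
  have hN15 : (2 ^ (8 * j + 3) + 2 ^ (4 * j + 2) + 1) % 15 = 13 := by
    have e1 : 2 ^ (8 * j + 3) = 2 ^ (4 * (2 * j)) * 8 := by
      rw [← mul_assoc]; norm_num [pow_add]
    have e2 : 2 ^ (4 * j + 2) = 2 ^ (4 * j) * 4 := by rw [pow_add]; norm_num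
    rw [e1, e2]
    have h1 := hmod (2 * j)
    have h2 := hmod j
    omega
  have hq15 : ¬ q ∣ 15 := by
    intro h15
    have h3 : q ∣ 13 := by
      rw [← hN15]
      exact (Nat.dvd_mod_iff h15).2 hd
    have h4 : q ∣ Nat.gcd 15 13 := Nat.dvd_gcd h15 h3
    norm_num at h4
    exact hq.one_lt.ne' h4
  haveI : Fact q.Prime := ⟨hq⟩
  -- the identity
  have hz : ((2 : ZMod q)) ^ (2 * (8 * j + 3)) = -1 := by
    have h1 : (((2 ^ (8 * j + 3) + 2 ^ (4 * j + 2) + 1 : ℕ)) : ZMod q) = 0 :=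
      (ZMod.natCast_eq_zero_iff _ _).2 hd
    push_cast at h1
    have e : ((2 : ZMod q)) ^ (2 * (8 * j + 3)) + 1 =
        (2 ^ (8 * j + 3) + 2 ^ (4 * j + 2) + 1) *
        (2 ^ (8 * j + 3) - 2 ^ (4 * j + 2) + 1) := by ring
    rw [h1, zero_mul] at e
    exact eq_neg_of_add_eq_zero_left e
  have hneg : (-1 : ZMod q) ≠ 1 := by
    intro h
    have h2 : (2 : ZMod q) = 0 := by
      have : (1 : ZMod q) + 1 = 0 := by
        nth_rewrite 1 [← h]
        ring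
      rw [← this]; norm_num
    have h3 : ((2 : ℕ) : ZMod q) = 0 := by exact_mod_cast h2
    rw [ZMod.natCast_eq_zero_iff] at h3
    exact hq2 ((Nat.prime_dvd_prime_iff_eq hq Nat.prime_two).1 h3)
  -- order
  set o := orderOf (2 : ZMod q) with ho
  have ho1 : o ∣ 4 * (8 * j + 3) := by
    apply orderOf_dvd_of_pow_eq_one
    have : (2 : ZMod q) ^ (4 * (8 * j + 3)) = ((2 : ZMod q) ^ (2 * (8 * j + 3))) ^ 2 := by ring
    rw [this, hz]; ring
  have ho2 : ¬ o ∣ 2 * (8 * j + 3) := by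
    intro h
    have := orderOf_dvd_iff_pow_eq_one.1 h
    rw [hz] at this
    exact hneg this
  have ho4 : ¬ o ∣ 4 := by
    intro h
    have h1 := orderOf_dvd_iff_pow_eq_one.1 h
    have h2 : ((15 : ℕ) : ZMod q) = 0 := by
      have : ((15 : ℕ) : ZMod q) = (2 : ZMod q) ^ 4 - 1 := by norm_num
      rw [this, h1, sub_self]
    rw [ZMod.natCast_eq_zero_iff] at h2
    exact hq15 h2
  -- ℓ ∣ o
  have hlo : (8 * j + 3) ∣ o := by
    by_contra hcon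
    have hc : Nat.Coprime o (8 * j + 3) := ((Nat.Prime.coprime_iff_not_dvd hl).2 hcon).symm
    exact ho4 (hc.dvd_of_dvd_mul_right ho1)
  -- 4 ∣ o
  obtain ⟨t, ht⟩ := hlo
  have hlpos : 0 < 8 * j + 3 := by omega
  have ht4 : t ∣ 4 := by
    rw [ht, mul_comm 4] at ho1
    exact Nat.dvd_of_mul_dvd_mul_left hlpos ho1
  have ht2 : ¬ t ∣ 2 := by
    intro h
    apply ho2
    rw [ht, mul_comm 2]
    exact Nat.mul_dvd_mul_left _ h
  have htle : t ≤ 4 := Nat.le_of_dvd (by norm_num) ht4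
  have : t = 4 := by
    interval_cases t
    · norm_num at ht4
    · exact absurd (one_dvd 2) ht2
    · exact absurd (dvd_refl 2) ht2
    · norm_num at ht4
    · rfl
  rw [ht, this]
  ring

/-- coprime to all numbers `2 ^ K - 1`, `0 < K < 4 P` -/
theorem coprime_of {j K : ℕ} (hl : (8 * j + 3).Prime) (hK : 0 < K) (hK2 : K < 4 * (8 * j + 3)) :
    Nat.Coprime (2 ^ (8 * j + 3) + 2 ^ (4 * j + 2) + 1) (2 ^ K - 1) := by
  rw [Nat.coprime_iff_gcd_eq_one]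
  by_contra hcon
  obtain ⟨q, hq, hqd⟩ := Nat.exists_prime_and_dvd hcon
  have h1 : q ∣ 2 ^ (8 * j + 3) + 2 ^ (4 * j + 2) + 1 := hqd.trans (Nat.gcd_dvd_left _ _)
  have h2 : q ∣ 2 ^ K - 1 := hqd.trans (Nat.gcd_dvd_right _ _)
  have h3 := order_eq hl hq h1
  have h4 : (2 : ZMod q) ^ K = 1 := by
    have h5 : (((2 ^ K - 1 : ℕ)) : ZMod q) = 0 := (ZMod.natCast_eq_zero_iff _ _).2 h2
    rw [Nat.cast_sub Nat.one_le_two_pow] at h5
    push_cast at h5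
    exact sub_eq_zero.1 h5
  have h6 := orderOf_dvd_iff_pow_eq_one.2 h4
  rw [h3] at h6
  have := Nat.le_of_dvd hK h6
  omega

end Pool.Agent.NH18.SP
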